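import Pool.Agent.EGP.Defs

/-!
Coeffs: choice of the coefficients.

PROOF.  Let `t = 1/3`.  (*) Suppose `t^j ≤ b j ≤ (3/2) t^j` for all `j < J`.  Then `A b J k > 0` for `2 ≤ k ≤ 2J - 1`: the first sum in
`A` has at least one term (`i + j = k - 1 ≤ 2J - 2`), and exactly `k ≥ 2` terms if `k ≤ J`, each `≥ t^(k-1)`; the second sum is
empty if `k ≥ J`, and otherwise `∑_i b i b (i+k) ≤ (9/4) ∑_i t^(2i+k) ≤ (9/4) t^k / (1 - t^2)`, so
`A ≥ t^(k-1) (2 - (9/2) t / (1 - t^2)) = t^(k-1) (2 - 27/16) > 0` for `2 ≤ k < J`.  `A b J 0 = 0`.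
(Since `k ≥ J` has an empty second sum, only the number of pairs `≥ 1` is needed there.)
Odd `N = 2J - 1`: `b j = t^j`: also `A_1 = 1 - 2 ∑_{i < J-1} t^(2i+1) ≥ 1 - 2 t/(1 - t^2) = 1/4 > 0`.  So `A_k ≠ 0` exactly for
`1 ≤ k ≤ 2J - 1` (`J ≥ 1`).
Even `N = 2J - 2`, `J ≥ 2`: `b 0 = 1`, `b j = t^j` for `2 ≤ j < J`, and `b 1 = u` is determined by `A_1 = 0`:
`A_1 = b_0^2 - 2 ∑_{i < J-1} b_i b_(i+1) = 1 - 2 u - 2 u t^2 [J ≥ 3] - 2 τ`, `τ = ∑_{2 ≤ i < J-1} t^(2i+1) ≤ t^5/(1-t^2) = 1/216`.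
So `u = 1/2` for `J = 2` and `u = (1 - 2τ) / (2 + 2/9)` for `J ≥ 3`, i.e. `1/3 ≤ u ≤ 1/2`, so (*) holds.
Then `A_k ≠ 0` exactly for `2 ≤ k ≤ 2J - 1`, which are `2J - 2` values.
-/

namespace Pool.Agent.EGP

/-- the first sum -/
private def F (b : ℕ → ℚ) (J k : ℕ) : ℚ :=
  ∑ i ∈ Finset.range J, ∑ j ∈ Finset.range J, if i + j + 1 = k then b i * b j else 0

/-- the second sum -/
private def S (b : ℕ → ℚ) (J k : ℕ) : ℚ :=
  ∑ i ∈ Finset.range J, ∑ j ∈ Finset.range J, if i < j ∧ j - i = k then b i * b j else 0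

private theorem A_eq (b : ℕ → ℚ) (J k : ℕ) : A b J k = F b J k - 2 * S b J k := rfl

private theorem inner (b : ℕ → ℚ) (J i k : ℕ) (hk : 1 ≤ k) :
    (∑ j ∈ Finset.range J, if i < j ∧ j - i = k then b i * b j else 0) =
      if i + k < J then b i * b (i + k) else 0 := by
  by_cases h : i + k < J
  · rw [if_pos h, Finset.sum_eq_single (i + k)]
    · rw [if_pos ⟨by omega, by omega⟩]
    · intro j _ hj
      rw [if_neg]
      rintro ⟨h1, h2⟩
      omega
    · intro h1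
      exact absurd (Finset.mem_range.mpr h) h1
  · rw [if_neg h]
    refine Finset.sum_eq_zero fun j hj => ?_
    rw [if_neg]
    rintro ⟨h1, h2⟩
    have := Finset.mem_range.mp hj
    omega

private theorem S_eq (b : ℕ → ℚ) (J k : ℕ) (hk : 1 ≤ k) :
    S b J k = ∑ i ∈ Finset.range J, if i + k < J then b i * b (i + k) else 0 :=
  Finset.sum_congr rfl fun i _ => inner b J i k hk

private theorem geom (n : ℕ) : ∑ i ∈ Finset.range n, ((1 : ℚ) / 9) ^ i ≤ 9 / 8 := by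
  have h : ∑ i ∈ Finset.range n, ((1 : ℚ) / 9) ^ i = 9 / 8 * (1 - (1 / 9) ^ n) := by
    induction n with
    | zero => simp
    | succ n ih =>
      rw [Finset.sum_range_succ, ih, pow_succ]
      ring
  rw [h]
  have : (0 : ℚ) ≤ (1 / 9) ^ n := by positivity
  linarith

private theorem S_le {b : ℕ → ℚ} {J k : ℕ} {c : ℚ} (hk : 1 ≤ k) (hc : 0 ≤ c)
    (h0 : ∀ j < J, 0 ≤ b j) (h : ∀ j < J, b j ≤ c * (1 / 3) ^ j) :
    S b J k ≤ c ^ 2 * (9 / 8) * (1 / 3) ^ k := by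
  rw [S_eq b J k hk]
  have h1 : ∀ i ∈ Finset.range J, (if i + k < J then b i * b (i + k) else 0) ≤
      c ^ 2 * (1 / 3) ^ k * (1 / 9) ^ i := by
    intro i hi
    have e : c ^ 2 * (1 / 3 : ℚ) ^ k * (1 / 9) ^ i = (c * (1 / 3) ^ i) * (c * (1 / 3) ^ (i + k)) := by
      have : (1 / 9 : ℚ) ^ i = (1 / 3) ^ i * (1 / 3) ^ i := by
        rw [← mul_pow]
        norm_num
      rw [this, pow_add]
      ring
    rw [e]
    split_ifs with hik
    · exact mul_le_mul (h i (Finset.mem_range.mp hi)) (h _ hik) (h0 _ hik) (by positivity)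
    · positivity
  refine (Finset.sum_le_sum h1).trans ?_
  rw [← Finset.mul_sum]
  have h2 := geom J
  have h3 : 0 ≤ c ^ 2 * (1 / 3 : ℚ) ^ k := by positivity
  calc c ^ 2 * (1 / 3) ^ k * ∑ i ∈ Finset.range J, (1 / 9 : ℚ) ^ i
      ≤ c ^ 2 * (1 / 3) ^ k * (9 / 8) := mul_le_mul_of_nonneg_left h2 h3
    _ = c ^ 2 * (9 / 8) * (1 / 3) ^ k := by ring

private theorem F_ge {b : ℕ → ℚ} {J k : ℕ} (h0 : ∀ j < J, 0 ≤ b j) (s : Finset (ℕ × ℕ))
    (hs : ∀ p ∈ s, p.1 < J ∧ p.2 < J ∧ p.1 + p.2 + 1 = k) :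
    ∑ p ∈ s, b p.1 * b p.2 ≤ F b J k := by
  unfold F
  rw [← Finset.sum_product' (f := fun i j => if i + j + 1 = k then b i * b j else 0)]
  have h1 : ∑ p ∈ s, b p.1 * b p.2 = ∑ p ∈ s, if p.1 + p.2 + 1 = k then b p.1 * b p.2 else 0 :=
    Finset.sum_congr rfl fun p hp => by rw [if_pos (hs p hp).2.2]
  rw [h1]
  apply Finset.sum_le_sum_of_subset_of_nonneg
  · intro p hp
    rw [Finset.mem_product, Finset.mem_range, Finset.mem_range]
    exact ⟨(hs p hp).1, (hs p hp).2.1⟩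
  · intro p hp _
    rw [Finset.mem_product, Finset.mem_range, Finset.mem_range] at hp
    split_ifs
    · exact mul_nonneg (h0 _ hp.1) (h0 _ hp.2)
    · exact le_refl _

private theorem F_zero {b : ℕ → ℚ} {J k : ℕ} (hk : k = 0 ∨ 2 * J ≤ k) : F b J k = 0 := by
  unfold F
  refine Finset.sum_eq_zero fun i hi => Finset.sum_eq_zero fun j hj => ?_
  rw [if_neg]
  have h1 := Finset.mem_range.mp hi
  have h2 := Finset.mem_range.mp hj
  omega

private theorem S_zero {b : ℕ → ℚ} {J k : ℕ} (hk : k = 0 ∨ J ≤ k) : S b J k = 0 := by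
  unfold S
  refine Finset.sum_eq_zero fun i hi => Finset.sum_eq_zero fun j hj => ?_
  rw [if_neg]
  have h1 := Finset.mem_range.mp hi
  have h2 := Finset.mem_range.mp hj
  omega

private theorem A_zero {b : ℕ → ℚ} {J k : ℕ} (hk : k = 0 ∨ 2 * J ≤ k) : A b J k = 0 := by
  rw [A_eq, F_zero hk, S_zero (by omega)]
  ring

private theorem A_pos {b : ℕ → ℚ} {J k : ℕ} (hk : 2 ≤ k) (hkJ : k < 2 * J)
    (h1 : ∀ j < J, (1 / 3) ^ j ≤ b j) (h2 : ∀ j < J, b j ≤ 3 / 2 * (1 / 3) ^ j) :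
    0 < A b J k := by
  have h0 : ∀ j < J, 0 < b j := fun j hj => lt_of_lt_of_le (by positivity) (h1 j hj)
  rw [A_eq]
  rcases Nat.lt_or_ge k J with hk2 | hk2
  · have hF := F_ge (k := k) (fun j hj => (h0 j hj).le) {(0, k - 1), (k - 1, 0)} (by
      intro p hp
      rw [Finset.mem_insert, Finset.mem_singleton] at hp
      rcases hp with rfl | rfl
      · exact ⟨by omega, by simp only; omega, by simp only; omega⟩
      · exact ⟨by simp only; omega, by simp only; omega, by simp only; omega⟩)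
    rw [Finset.sum_pair (by
      intro h
      have := congrArg Prod.fst h
      simp only at this
      omega)] at hF
    simp only at hF
    have hb0 := h1 0 (by omega)
    have hbk := h1 (k - 1) (by omega)
    rw [pow_zero] at hb0
    have hS := S_le (b := b) (J := J) (k := k) (c := 3 / 2) (by omega) (by norm_num)
      (fun j hj => (h0 j hj).le) h2
    obtain ⟨m, rfl⟩ : ∃ m, k = m + 1 := ⟨k - 1, by omega⟩
    rw [Nat.add_sub_cancel] at hF hbk
    have hpe : (1 / 3 : ℚ) ^ (m + 1) = (1 / 3) ^ m * (1 / 3) := pow_succ _ _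
    rw [hpe] at hS
    have hp : (0 : ℚ) < (1 / 3) ^ m := by positivity
    have h3 : (1 / 3 : ℚ) ^ m ≤ b 0 * b m := by nlinarith
    have h4 : b m * b 0 = b 0 * b m := mul_comm _ _
    rw [h4] at hF
    nlinarith
  · rw [S_zero (Or.inr hk2)]
    have hF := F_ge (k := k) (fun j hj => (h0 j hj).le) {(J - 1, k - J)} (by
      intro p hp
      rw [Finset.mem_singleton] at hp
      rw [hp]
      exact ⟨by simp only; omega, by simp only; omega, by simp only; omega⟩)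
    rw [Finset.sum_singleton] at hF
    have := mul_pos (h0 (J - 1) (by omega)) (h0 (k - J) (by omega))
    linarith

private theorem F_one {b : ℕ → ℚ} {J : ℕ} (hJ : 1 ≤ J) : F b J 1 = b 0 * b 0 := by
  unfold F
  rw [Finset.sum_eq_single 0, Finset.sum_eq_single 0]
  · rw [if_pos rfl]
  · intro j _ hj
    rw [if_neg (by omega)]
  · intro h
    exact absurd (Finset.mem_range.mpr (by omega)) h
  · intro i _ hi
    refine Finset.sum_eq_zero fun j _ => ?_
    rw [if_neg (by omega)]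
  · intro h
    exact absurd (Finset.mem_range.mpr (by omega)) h

/-- the case `N = 2 J - 1` -/
private theorem coeffs_odd (J : ℕ) (hJ : 1 ≤ J) : ∃ b : ℕ → ℚ, (∀ k, 0 ≤ A b J k) ∧
    ((Finset.range (2 * J)).filter fun k => A b J k ≠ 0).card = 2 * J - 1 := by
  obtain ⟨b, hb⟩ : ∃ b : ℕ → ℚ, b = fun j => (1 / 3) ^ j := ⟨_, rfl⟩
  have hb1 : ∀ j < J, (1 / 3 : ℚ) ^ j ≤ b j := fun j _ => by rw [hb]
  have hb2 : ∀ j < J, b j ≤ 3 / 2 * (1 / 3) ^ j := fun j _ => by
    rw [hb]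
    have : (0 : ℚ) < (1 / 3) ^ j := by positivity
    simp only
    linarith
  have hA1 : 0 < A b J 1 := by
    rw [A_eq, F_one hJ]
    have hS := S_le (b := b) (J := J) (k := 1) (c := 1) le_rfl (by norm_num)
      (fun j _ => by rw [hb]; positivity) (fun j _ => by rw [hb, one_mul])
    have h0 : b 0 = 1 := by rw [hb]; norm_num
    rw [h0]
    linarith
  have hpos : ∀ k, 1 ≤ k → k < 2 * J → 0 < A b J k := by
    intro k hk hkJ
    rcases Nat.lt_or_ge k 2 with h | h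
    · have : k = 1 := by omega
      rw [this]
      exact hA1
    · exact A_pos h hkJ hb1 hb2
  refine ⟨b, fun k => ?_, ?_⟩
  · by_cases h : k = 0 ∨ 2 * J ≤ k
    · rw [A_zero h]
    · exact (hpos k (by omega) (by omega)).le
  · have h1 : ((Finset.range (2 * J)).filter fun k => A b J k ≠ 0) = Finset.Ico 1 (2 * J) := by
      ext k
      rw [Finset.mem_filter, Finset.mem_range, Finset.mem_Ico]
      constructor
      · rintro ⟨h1, h2⟩
        refine ⟨?_, h1⟩
        by_contra h3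
        exact h2 (A_zero (Or.inl (by omega)))
      · rintro ⟨h1, h2⟩
        exact ⟨h2, (hpos k h1 h2).ne'⟩
    rw [h1, Nat.card_Ico]

/-- the case `N = 2 J - 2` -/
private theorem coeffs_even (J' : ℕ) : ∃ b : ℕ → ℚ, (∀ k, 0 ≤ A b (J' + 2) k) ∧
    ((Finset.range (2 * (J' + 2))).filter fun k => A b (J' + 2) k ≠ 0).card = 2 * J' + 2 := by
  obtain ⟨τ, hτ⟩ : ∃ τ : ℚ, τ = ∑ i ∈ Finset.range J',
    if i + 3 < J' + 2 then (1 / 3 : ℚ) ^ (i + 2) * (1 / 3) ^ (i + 3) else 0 := ⟨_, rfl⟩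
  obtain ⟨κ, hκ⟩ : ∃ κ : ℚ, κ = 1 + if 2 < J' + 2 then (1 / 3 : ℚ) ^ 2 else 0 := ⟨_, rfl⟩
  have hτ0 : 0 ≤ τ := by
    rw [hτ]
    refine Finset.sum_nonneg fun i _ => ?_
    split_ifs
    · positivity
    · exact le_refl _
  have hτ1 : τ ≤ 1 / 216 := by
    rw [hτ]
    have h1 : ∀ i ∈ Finset.range J', (if i + 3 < J' + 2 then (1 / 3 : ℚ) ^ (i + 2) *
        (1 / 3) ^ (i + 3) else 0) ≤ 1 / 243 * (1 / 9) ^ i := by
      intro i _
      have e : (1 / 3 : ℚ) ^ (i + 2) * (1 / 3) ^ (i + 3) = 1 / 243 * (1 / 9) ^ i := by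
        have : (1 / 9 : ℚ) ^ i = (1 / 3) ^ i * (1 / 3) ^ i := by
          rw [← mul_pow]
          norm_num
        rw [this, pow_add, pow_add]
        ring
      split_ifs
      · exact e.le
      · positivity
    refine (Finset.sum_le_sum h1).trans ?_
    rw [← Finset.mul_sum]
    have := geom J'
    linarith
  have hκ1 : 1 ≤ κ := by
    rw [hκ]
    split_ifs
    · norm_num
    · norm_num
  have hκ2 : κ ≤ 10 / 9 := by
    rw [hκ]
    split_ifs
    · norm_num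
    · norm_num
  obtain ⟨u, hu⟩ : ∃ u : ℚ, u * κ = 1 / 2 - τ := ⟨(1 / 2 - τ) / κ, by
    rw [div_mul_cancel₀]
    linarith⟩
  have hu1 : 1 / 3 ≤ u := by
    by_contra h
    push Not at h
    nlinarith
  have hu2 : u ≤ 1 / 2 := by
    by_contra h
    push Not at h
    nlinarith
  obtain ⟨b, hb⟩ : ∃ b : ℕ → ℚ, b = fun j => if j = 1 then u else (1 / 3) ^ j := ⟨_, rfl⟩
  have b0 : b 0 = 1 := by rw [hb]; norm_num
  have b1 : b 1 = u := by rw [hb]; norm_num
  have b2 : ∀ j, b (j + 2) = (1 / 3) ^ (j + 2) := fun j => by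
    rw [hb]
    simp only
    rw [if_neg (by omega)]
  have hb1 : ∀ j < J' + 2, (1 / 3 : ℚ) ^ j ≤ b j := by
    intro j _
    match j with
    | 0 => rw [b0]; norm_num
    | 1 => rw [b1]; linarith
    | j + 2 => rw [b2]
  have hb2 : ∀ j < J' + 2, b j ≤ 3 / 2 * (1 / 3) ^ j := by
    intro j _
    match j with
    | 0 => rw [b0]; norm_num
    | 1 => rw [b1]; linarith
    | j + 2 =>
      rw [b2]
      have : (0 : ℚ) < (1 / 3) ^ (j + 2) := by positivity
      linarith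
  have hA1 : A b (J' + 2) 1 = 0 := by
    rw [A_eq, F_one (by omega), S_eq _ _ _ le_rfl, Finset.sum_range_succ', Finset.sum_range_succ']
    have e1 : ∀ i, b (i + 1 + 1) * b (i + 1 + 1 + 1) = (1 / 3 : ℚ) ^ (i + 2) * (1 / 3) ^ (i + 3) :=
      fun i => by
        rw [show i + 1 + 1 = i + 2 from rfl, show i + 2 + 1 = (i + 1) + 2 from rfl, b2, b2]
    have e2 : ∀ i, (i + 1 + 1 + 1 < J' + 2) = (i + 3 < J' + 2) := fun i => rfl
    simp only [e1, e2]
    rw [← hτ, b0, show (0 + 1 + 1 : ℕ) = 0 + 2 from rfl, b2, show (0 + 1 : ℕ) = 1 from rfl, b1,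
      if_pos (by omega : 1 < J' + 2)]
    have e3 : (if 0 + 2 < J' + 2 then u * (1 / 3 : ℚ) ^ (0 + 2) else 0) =
        u * (κ - 1) := by
      rw [hκ]
      by_cases h : 2 < J' + 2
      · rw [if_pos h, if_pos (by omega)]
        ring
      · rw [if_neg h, if_neg (by omega)]
        ring
    rw [e3]
    linear_combination (-2) * hu
  have hpos : ∀ k, 2 ≤ k → k < 2 * (J' + 2) → 0 < A b (J' + 2) k := fun k hk hkJ =>
    A_pos hk hkJ hb1 hb2
  refine ⟨b, fun k => ?_, ?_⟩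
  · by_cases h : k = 0 ∨ 2 * (J' + 2) ≤ k
    · rw [A_zero h]
    · rcases Nat.lt_or_ge k 2 with h2 | h2
      · have : k = 1 := by omega
        rw [this, hA1]
      · exact (hpos k (by omega) (by omega)).le
  · have h1 : ((Finset.range (2 * (J' + 2))).filter fun k => A b (J' + 2) k ≠ 0) =
        Finset.Ico 2 (2 * (J' + 2)) := by
      ext k
      rw [Finset.mem_filter, Finset.mem_range, Finset.mem_Ico]
      constructor
      · rintro ⟨h1, h2⟩
        refine ⟨?_, h1⟩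
        by_contra h3
        rcases Nat.lt_or_ge k 1 with h4 | h4
        · exact h2 (A_zero (Or.inl (by omega)))
        · have : k = 1 := by omega
          rw [this] at h2
          exact h2 hA1
      · rintro ⟨h1, h2⟩
        exact ⟨h2, (hpos k h1 h2).ne'⟩
    rw [h1, Nat.card_Ico]
    omega

theorem coeffs (N : ℕ) (hN : 1 ≤ N) : ∃ (J : ℕ) (b : ℕ → ℚ), (∀ k, 0 ≤ A b J k) ∧
    ((Finset.range (2 * J)).filter fun k => A b J k ≠ 0).card = N := by
  rcases Nat.even_or_odd' N with ⟨c, hc | hc⟩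
  · obtain ⟨b, h1, h2⟩ := coeffs_even (c - 1)
    refine ⟨c - 1 + 2, b, h1, ?_⟩
    rw [h2]
    omega
  · obtain ⟨b, h1, h2⟩ := coeffs_odd (c + 1) (by omega)
    refine ⟨c + 1, b, h1, ?_⟩
    rw [h2]
    omega

end Pool.Agent.EGP
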