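import Mathlib

/-!
# EGP (problem MP_85281a_co): infinite rational-distance sets in general position in `E^n`, `n ≥ 3`

THEOREM (`Final.lean`).  For every `n ≥ 2` there is an infinite rational-distance set in `E^n` with at most `n` points on
every hyperplane; for odd `n` with at most `n + 1` points on every sphere as well.

CONSTRUCTION.  Let `P(θ) = ∑_{j < J} b_j sin((2j+1) θ)`, `b_j` rational.  Then
`P(θ)^2 = ∑_{k < 2J} A_k sin^2(k θ)`, `A_k = ∑_{i+j+1=k} b_i b_j - 2 ∑_{i<j, j-i=k} b_i b_j` (`Ident`).  For suitable `b` all
`A_k ≥ 0` and exactly `N` of them are nonzero (`Coeffs`).  For a complex number `w` of absolute value one with rational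
coordinates let `γ(w) = (√A_k w^{2k})_k ∈ ℂ^N = E^{2N}`.  Since `|w^{2k} - w'^{2k}| = 2 |Im (w conj w')^k|`,
`|γ(w) - γ(w')| = 2 |∑_j b_j Im (w conj w')^{2j+1}|` is rational.  The points lie on a sphere, and every hyperplane
contains only finitely many of them (a nonzero trigonometric polynomial; `SphereSet`).  Inversion with centre one of the
points gives a rational-distance set in `E^{2N-1}` with only finitely many points on every hyperplane or sphere
(`Invert`).  A greedy choice gives infinite subsets in general position (`Greedy`).
The first example is `b = (1, 1/2)`: `P^2 = sin^2 2θ + sin^2 3θ / 4`, a curve in `E^4`, after inversion in `E^3`.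
-/

namespace Pool.Agent.EGP

/-- The coefficient `A_k`. -/
def A (b : ℕ → ℚ) (J k : ℕ) : ℚ :=
  (∑ i ∈ Finset.range J, ∑ j ∈ Finset.range J, if i + j + 1 = k then b i * b j else 0) -
    2 * ∑ i ∈ Finset.range J, ∑ j ∈ Finset.range J, if i < j ∧ j - i = k then b i * b j else 0

end Pool.Agent.EGP
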