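import Pool.Agent.EGP.Defs

/-!
Greedy: infinite subsets in general position, for two maps into coordinate spaces simultaneously.

PROOF.  For a finite set `R` of indices with fewer than `d` elements choose `vF R ≠ 0` in `Fin d → ℝ` with `F i ⬝ᵥ vF R = 0` for all `i ∈ R`
(fewer than `d` linear conditions), similarly `vG R`.  Choose recursively `t 0 < t 1 < ...` such that `t n` is not in any of the
finitely many finite sets `{i | F i ⬝ᵥ vF R = 0}`, `R ⊆ {t 0, ..., t (n-1)}`, `card R < d`, nor in the analogous sets for `G`.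
Let `T` be the set of all `t n`.
Claim: any set `R ⊆ T` with `card R ≤ d` has linearly independent images `F i`: induction on `card R`, removing the largest
element `i₀`: `F i₀ ⬝ᵥ vF (R \ {i₀}) ≠ 0`, while all `F i`, `i ∈ R \ {i₀}`, are orthogonal to `vF (R \ {i₀})`.
So if `v ≠ 0` had `d` elements `i ∈ T` with `F i ⬝ᵥ v = 0`, the `d` independent vectors `F i` would span `Fin d → ℝ` and `v = 0`.
Hence at most `d - 1` such elements.
-/

namespace Pool.Agent.EGP

namespace GreedyAux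

open Module

/-- fewer than `d` linear conditions have a nonzero solution -/
theorem exists_orth {d : ℕ} (F : ℕ → Fin d → ℝ) (R : Finset ℕ) (hR : R.card < d) :
    ∃ v : Fin d → ℝ, v ≠ 0 ∧ ∀ i ∈ R, F i ⬝ᵥ v = 0 := by
  let f : (Fin d → ℝ) →ₗ[ℝ] (R → ℝ) :=
    { toFun := fun v i => F i ⬝ᵥ v
      map_add' := by
        intro v w
        ext i
        simp [dotProduct_add]
      map_smul' := by
        intro c v
        ext i
        simp [dotProduct_smul] }
  have h : LinearMap.ker f ≠ ⊥ := by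
    apply LinearMap.ker_ne_bot_of_finrank_lt
    simpa using hR
  obtain ⟨v, hv, hv0⟩ := Submodule.exists_mem_ne_zero_of_ne_bot h
  refine ⟨v, hv0, fun i hi => ?_⟩
  exact congrFun (LinearMap.mem_ker.1 hv) ⟨i, hi⟩

/-- the chosen vector -/
noncomputable def vec {d : ℕ} (F : ℕ → Fin d → ℝ) (R : Finset ℕ) : Fin d → ℝ := by
  classical
  exact if hR : R.card < d then (exists_orth F R hR).choose else 0

theorem vec_ne {d : ℕ} (F : ℕ → Fin d → ℝ) (R : Finset ℕ) (hR : R.card < d) : vec F R ≠ 0 := by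
  unfold vec
  rw [dif_pos hR]
  exact (exists_orth F R hR).choose_spec.1

theorem vec_orth {d : ℕ} (F : ℕ → Fin d → ℝ) (R : Finset ℕ) (hR : R.card < d) :
    ∀ i ∈ R, F i ⬝ᵥ vec F R = 0 := by
  unfold vec
  rw [dif_pos hR]
  exact (exists_orth F R hR).choose_spec.2

/-- the forbidden indices -/
def bad {d : ℕ} (F : ℕ → Fin d → ℝ) (A : Set ℕ) : Set ℕ :=
  {i | ∃ R : Finset ℕ, (R : Set ℕ) ⊆ A ∧ R.card < d ∧ F i ⬝ᵥ vec F R = 0}

theorem bad_finite {d : ℕ} (F : ℕ → Fin d → ℝ)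
    (hF : ∀ v : Fin d → ℝ, v ≠ 0 → {i | F i ⬝ᵥ v = 0}.Finite) (A : Set ℕ) (hA : A.Finite) :
    (bad F A).Finite := by
  classical
  have h1 : (bad F A) ⊆ ⋃ R ∈ hA.toFinset.powerset,
      {i | R.card < d ∧ F i ⬝ᵥ vec F R = 0} := by
    intro i hi
    obtain ⟨R, hR, hc, h0⟩ := hi
    rw [Set.mem_iUnion₂]
    refine ⟨R, ?_, hc, h0⟩
    rw [Finset.mem_powerset]
    intro x hx
    rw [Set.Finite.mem_toFinset]
    exact hR hx
  refine Set.Finite.subset (Set.Finite.biUnion (Finset.finite_toSet _) ?_) h1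
  intro R _
  by_cases hc : R.card < d
  · exact (hF _ (vec_ne F R hc)).subset fun i hi => hi.2
  · have : {i | R.card < d ∧ F i ⬝ᵥ vec F R = 0} = ∅ := by
      ext i
      simp [hc]
    rw [this]
    exact Set.finite_empty

theorem exists_rec (B : Set ℕ → Set ℕ) :
    ∃ T : Set ℕ, ∀ i, i ∈ T ↔ i ∉ B {j | j < i ∧ j ∈ T} := by
  let P : ℕ → Prop := WellFounded.fix (C := fun _ => Prop) (Nat.lt_wfRel.wf)
    (fun i ih => i ∉ B {j | ∃ h : j < i, ih j h})
  have hP : ∀ i, P i = (i ∉ B {j | ∃ _ : j < i, P j}) := fun i =>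
    WellFounded.fix_eq (C := fun _ => Prop) (Nat.lt_wfRel.wf) _ i
  refine ⟨{i | P i}, fun i => ?_⟩
  have h := hP i
  simp only [exists_prop] at h
  change P i ↔ i ∉ B {j | j < i ∧ P j}
  rw [h]

theorem indep {d : ℕ} (F : ℕ → Fin d → ℝ) (T : Set ℕ)
    (hT : ∀ i ∈ T, i ∉ bad F {j | j < i ∧ j ∈ T}) (R : Finset ℕ) :
    (R : Set ℕ) ⊆ T → R.card ≤ d → LinearIndepOn ℝ F (R : Set ℕ) := by
  classical
  induction R using Finset.induction_on_max with
  | empty =>
    intro _ _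
    rw [Finset.coe_empty]
    exact linearIndepOn_empty ℝ F
  | insert a s hmax ih =>
    intro hsub hcard
    have ha : a ∉ s := fun h => lt_irrefl _ (hmax a h)
    rw [Finset.card_insert_of_notMem ha] at hcard
    have hs : (s : Set ℕ) ⊆ T := fun x hx => hsub (Finset.mem_coe.2 (Finset.mem_insert_of_mem hx))
    have h1 := ih hs (by omega)
    have haT : a ∈ T := hsub (Finset.mem_coe.2 (Finset.mem_insert_self a s))
    rw [Finset.coe_insert]
    refine h1.insert ?_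
    intro hspan
    apply hT a haT
    refine ⟨s, fun x hx => ⟨hmax x hx, hs hx⟩, by omega, ?_⟩
    have hle : Submodule.span ℝ (F '' (s : Set ℕ)) ≤
        LinearMap.ker ((dotProductBilin ℝ ℝ (m := Fin d)).flip (vec F s)) := by
      rw [Submodule.span_le]
      rintro _ ⟨i, hi, rfl⟩
      rw [SetLike.mem_coe, LinearMap.mem_ker]
      exact vec_orth F s (by omega) i hi
    exact LinearMap.mem_ker.1 (hle hspan)

theorem count {d : ℕ} (hd : 1 ≤ d) (F : ℕ → Fin d → ℝ) (T : Set ℕ)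
    (hF : ∀ v : Fin d → ℝ, v ≠ 0 → {i | F i ⬝ᵥ v = 0}.Finite)
    (hT : ∀ i ∈ T, i ∉ bad F {j | j < i ∧ j ∈ T}) (v : Fin d → ℝ) (hv : v ≠ 0) :
    {i | i ∈ T ∧ F i ⬝ᵥ v = 0}.ncard ≤ d - 1 := by
  classical
  by_contra hcon
  push Not at hcon
  have hfin : {i | i ∈ T ∧ F i ⬝ᵥ v = 0}.Finite := (hF v hv).subset fun i hi => hi.2
  have hc : d ≤ hfin.toFinset.card := by
    rw [← Set.ncard_eq_toFinset_card _ hfin]
    omega
  obtain ⟨R, hR, hRc⟩ := Finset.exists_subset_card_eq hc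
  have hR' : ∀ i ∈ R, i ∈ T ∧ F i ⬝ᵥ v = 0 := fun i hi => (Set.Finite.mem_toFinset hfin).1 (hR hi)
  have hli := indep F T hT R (fun i hi => (hR' i hi).1) hRc.le
  have hspan : Submodule.span ℝ (Set.range fun i : (R : Set ℕ) => F i) = ⊤ := by
    refine LinearIndependent.span_eq_top_of_card_eq_finrank' hli ?_
    simp [hRc]
  have hle : (⊤ : Submodule ℝ (Fin d → ℝ)) ≤
      LinearMap.ker ((dotProductBilin ℝ ℝ (m := Fin d)).flip v) := by
    rw [← hspan, Submodule.span_le]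
    rintro _ ⟨i, rfl⟩
    rw [SetLike.mem_coe, LinearMap.mem_ker]
    exact (hR' i i.2).2
  have h0 : v ⬝ᵥ v = 0 := LinearMap.mem_ker.1 (hle (Submodule.mem_top (x := v)))
  exact hv (dotProduct_self_eq_zero.1 h0)

end GreedyAux

theorem greedy {d e : ℕ} (hd : 1 ≤ d) (he : 1 ≤ e) (F : ℕ → Fin d → ℝ) (G : ℕ → Fin e → ℝ)
    (hF : ∀ v : Fin d → ℝ, v ≠ 0 → {i | F i ⬝ᵥ v = 0}.Finite)
    (hG : ∀ v : Fin e → ℝ, v ≠ 0 → {i | G i ⬝ᵥ v = 0}.Finite) :
    ∃ T : Set ℕ, T.Infinite ∧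
      (∀ v : Fin d → ℝ, v ≠ 0 → {i | i ∈ T ∧ F i ⬝ᵥ v = 0}.ncard ≤ d - 1) ∧
      ∀ v : Fin e → ℝ, v ≠ 0 → {i | i ∈ T ∧ G i ⬝ᵥ v = 0}.ncard ≤ e - 1 := by
  classical
  obtain ⟨T, hT⟩ := GreedyAux.exists_rec (fun A => GreedyAux.bad F A ∪ GreedyAux.bad G A)
  refine ⟨T, ?_, ?_, ?_⟩
  · intro hfin
    have hbad : (GreedyAux.bad F T ∪ GreedyAux.bad G T).Finite :=
      (GreedyAux.bad_finite F hF T hfin).union (GreedyAux.bad_finite G hG T hfin)
    obtain ⟨N, hN⟩ : ∃ N, ∀ i ∈ T, i < N := by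
      obtain ⟨N, hN⟩ := hfin.bddAbove
      exact ⟨N + 1, fun i hi => Nat.lt_succ_of_le (hN hi)⟩
    obtain ⟨M, hM⟩ : ∃ M, ∀ i ∈ GreedyAux.bad F T ∪ GreedyAux.bad G T, i < M := by
      obtain ⟨M, hM⟩ := hbad.bddAbove
      exact ⟨M + 1, fun i hi => Nat.lt_succ_of_le (hM hi)⟩
    have hmem : N + M ∈ T := by
      rw [hT]
      have hset : {j | j < N + M ∧ j ∈ T} = T := by
        ext j
        constructor
        · exact fun h => h.2
        · intro h
          have := hN j h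
          exact ⟨by omega, h⟩
      rw [hset]
      intro h
      have := hM _ h
      omega
    have := hN _ hmem
    omega
  · intro v hv
    exact GreedyAux.count hd F T hF (fun i hi h => (hT i).1 hi (Or.inl h)) v hv
  · intro v hv
    exact GreedyAux.count he G T hG (fun i hi h => (hT i).1 hi (Or.inr h)) v hv

end Pool.Agent.EGP
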