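import Pool.Agent.EGP.Defs

/-!
Invert: inversion with centre on the sphere.

PROOF.  Put `s₀ = f 0`, `s i = f (i + 1)`, `d i = ‖s i - s₀‖ > 0` (injective).  `y i = (s i - s₀) / d i ^ 2`; `‖y i - y j‖ = ‖s i - s j‖ / (d i d j)`
(`EuclideanGeometry.dist_inversion_inversion` or `dist_div_norm_sq_smul`), a rational number.  From `‖s i‖ = ‖s₀‖ = ρ`:
`⟪s i - s₀, s₀⟫ = - d i ^ 2 / 2`, so `⟪y i, s₀⟫ = -1/2` for all `i`: all `y i` lie in a hyperplane parallel to `U = s₀^⊥`, `finrank U = m`.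
Let `g i ∈ ℝ^m` be the coordinates (an isometry `U ≃ EuclideanSpace ℝ (Fin m)`, `stdOrthonormalBasis`) of the orthogonal projection
`y i + s₀ / (2 ρ^2)` of `y i` to `U`.  Then `dist (g i) (g j) = ‖y i - y j‖`, and `g` is injective.
`‖g i‖^2 = ‖y i‖^2 - 1/(4 ρ^2) = 1 / d i ^ 2 - 1/(4ρ^2)`, and for `v ∈ ℝ^m` corresponding to `v' ∈ U`: `⟪g i, v⟫ = ⟪y i, v'⟫ = ⟪s i, v'⟫ / d i ^ 2`
(`⟪s₀, v'⟫ = 0`).  So `a ‖g i‖^2 + ⟪g i, v⟫ + c = 0` is equivalent (multiply by `d i ^ 2 = 2ρ^2 - 2⟪s i, s₀⟫`) to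
`a + ⟪s i, v'⟫ + (c - a/(4ρ^2)) (2ρ^2 - 2 ⟪s i, s₀⟫) = 0`, i.e. `⟪s i, V⟫ = C` with `V = v' - 2 (c - a/(4ρ^2)) s₀`,
`C = - a - 2 ρ^2 (c - a/(4ρ^2))`.  If `V = 0` and `C = 0` then (`v' ⊥ s₀`) `v' = 0`, `c - a/(4ρ^2) = 0`, `a = 0`, `c = 0`: excluded.
So only finitely many `i`.
-/

namespace Pool.Agent.EGP

theorem invert {m : ℕ} {f : ℕ → EuclideanSpace ℝ (Fin (m + 1))} {ρ : ℝ}
    (hf : Function.Injective f) (hρ : 0 < ρ) (hs : ∀ i, ‖f i‖ = ρ)
    (hr : ∀ i j, ∃ q : ℚ, dist (f i) (f j) = q)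
    (hh : ∀ (v : EuclideanSpace ℝ (Fin (m + 1))) (c : ℝ), (v ≠ 0 ∨ c ≠ 0) →
      {i | inner ℝ (f i) v = c}.Finite) :
    ∃ g : ℕ → EuclideanSpace ℝ (Fin m), Function.Injective g ∧
      (∀ i j, ∃ q : ℚ, dist (g i) (g j) = q) ∧
      ∀ (a : ℝ) (v : EuclideanSpace ℝ (Fin m)) (c : ℝ), (a ≠ 0 ∨ v ≠ 0 ∨ c ≠ 0) →
        {i | a * ‖g i‖ ^ 2 + inner ℝ (g i) v + c = 0}.Finite := by
  classical
  set s₀ : EuclideanSpace ℝ (Fin (m + 1)) := f 0 with hs₀
  have hs₀n : ‖s₀‖ = ρ := hs 0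
  have hs₀0 : s₀ ≠ 0 := by
    intro h
    rw [h, norm_zero] at hs₀n
    exact hρ.ne hs₀n
  have hfact : Fact (Module.finrank ℝ (EuclideanSpace ℝ (Fin (m + 1))) = m + 1) := ⟨by simp⟩
  let b := OrthonormalBasis.fromOrthogonalSpanSingleton (𝕜 := ℝ) m hs₀0
  -- the differences
  let x : ℕ → EuclideanSpace ℝ (Fin (m + 1)) := fun i => f (i + 1) - s₀
  have hx0 : ∀ i, x i ≠ 0 := by
    intro i h
    have h1 : f (i + 1) = f 0 := sub_eq_zero.1 h
    have := hf h1
    omega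
  have hxn : ∀ i, 0 < ‖x i‖ := fun i => norm_pos_iff.2 (hx0 i)
  have hin0 : inner ℝ s₀ s₀ = ρ ^ 2 := by
    rw [real_inner_self_eq_norm_sq, hs₀n]
  have hxsq : ∀ i, ‖x i‖ ^ 2 = 2 * ρ ^ 2 - 2 * inner ℝ (f (i + 1)) s₀ := by
    intro i
    rw [@norm_sub_sq_real, hs, hs₀n]
    ring
  have hxs₀ : ∀ i, inner ℝ (x i) s₀ = -(‖x i‖ ^ 2 / 2) := by
    intro i
    rw [hxsq, inner_sub_left, hin0]
    ring
  let y : ℕ → EuclideanSpace ℝ (Fin (m + 1)) := fun i => (1 / ‖x i‖) ^ 2 • x i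
  have hys₀ : ∀ i, inner ℝ (y i) s₀ = -(1 / 2 : ℝ) := by
    intro i
    have := (hxn i).ne'
    simp only [y]
    rw [real_inner_smul_left, hxs₀]
    field_simp
  let y' : ℕ → EuclideanSpace ℝ (Fin (m + 1)) := fun i => y i + (1 / (2 * ρ ^ 2)) • s₀
  have hy's₀ : ∀ i, inner ℝ (y' i) s₀ = (0 : ℝ) := by
    intro i
    simp only [y']
    rw [inner_add_left, hys₀, real_inner_smul_left, hin0]
    field_simp
    ring
  have hmem : ∀ i, y' i ∈ (ℝ ∙ s₀)ᗮ := by
    intro i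
    rw [Submodule.mem_orthogonal_singleton_iff_inner_left]
    exact hy's₀ i
  let g : ℕ → EuclideanSpace ℝ (Fin m) := fun i => b.repr ⟨y' i, hmem i⟩
  have hdist : ∀ i j, dist (g i) (g j) = 1 ^ 2 / (‖x i‖ * ‖x j‖) * dist (f (i + 1)) (f (j + 1)) := by
    intro i j
    have h1 : dist (g i) (g j) = dist (y' i) (y' j) := by
      simp only [g]
      rw [LinearIsometryEquiv.dist_map, Subtype.dist_eq]
    have h2 : dist (y' i) (y' j) = dist (y i) (y j) := by
      simp only [y']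
      rw [dist_add_right]
    rw [h1, h2]
    have h3 := dist_div_norm_sq_smul (hx0 i) (hx0 j) 1
    simp only [y]
    rw [h3]
    congr 1
    simp only [x]
    rw [dist_sub_right]
  refine ⟨g, ?_, ?_, ?_⟩
  · intro i j hij
    have h1 : dist (g i) (g j) = 0 := by rw [hij, dist_self]
    rw [hdist] at h1
    have h2 : (1 : ℝ) ^ 2 / (‖x i‖ * ‖x j‖) ≠ 0 := by
      have := hxn i
      have := hxn j
      positivity
    have h3 := (mul_eq_zero.1 h1).resolve_left h2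
    have h4 := hf (dist_eq_zero.1 h3)
    omega
  · intro i j
    obtain ⟨q1, h1⟩ := hr (i + 1) 0
    obtain ⟨q2, h2⟩ := hr (j + 1) 0
    obtain ⟨q3, h3⟩ := hr (i + 1) (j + 1)
    have e1 : ‖x i‖ = q1 := by rw [← h1, dist_eq_norm]
    have e2 : ‖x j‖ = q2 := by rw [← h2, dist_eq_norm]
    refine ⟨1 ^ 2 / (q1 * q2) * q3, ?_⟩
    rw [hdist, e1, e2, h3]
    push_cast
    ring
  · intro a v c hne
    set w : EuclideanSpace ℝ (Fin (m + 1)) := ((b.repr.symm v : (ℝ ∙ s₀)ᗮ) : EuclideanSpace ℝ (Fin (m + 1)))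
      with hw
    have hws₀ : inner ℝ w s₀ = (0 : ℝ) := by
      have h1 := (b.repr.symm v).2
      rw [Submodule.mem_orthogonal_singleton_iff_inner_left] at h1
      exact h1
    have hs₀w : inner ℝ s₀ w = (0 : ℝ) := by rw [real_inner_comm]; exact hws₀
    have hgn : ∀ i, ‖g i‖ ^ 2 = 1 / ‖x i‖ ^ 2 - 1 / (4 * ρ ^ 2) := by
      intro i
      have h1 : ‖g i‖ = ‖y' i‖ := by
        simp only [g]
        rw [LinearIsometryEquiv.norm_map]
        rfl
      have h2 : ‖y i‖ ^ 2 = 1 / ‖x i‖ ^ 2 := by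
        simp only [y]
        rw [norm_smul, Real.norm_of_nonneg (by positivity)]
        have := (hxn i).ne'
        field_simp
      rw [h1]
      simp only [y']
      rw [@norm_add_sq_real, h2, real_inner_smul_right, hys₀, norm_smul, hs₀n,
        Real.norm_of_nonneg (by positivity)]
      field_simp
      ring
    have hgv : ∀ i, inner ℝ (g i) v = inner ℝ (f (i + 1)) w / ‖x i‖ ^ 2 := by
      intro i
      have h1 : inner ℝ (g i) v = inner ℝ (y' i) w := by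
        simp only [g]
        rw [← b.repr.apply_symm_apply v, LinearIsometryEquiv.inner_map_map]
        rfl
      rw [h1]
      simp only [y', y, x]
      rw [inner_add_left, real_inner_smul_left, real_inner_smul_left, hs₀w, inner_sub_left, hs₀w]
      ring
    set k : ℝ := c - a / (4 * ρ ^ 2) with hk
    have hVC : w - (2 * k) • s₀ ≠ 0 ∨ -a - 2 * ρ ^ 2 * k ≠ 0 := by
      by_contra hcon
      push Not at hcon
      obtain ⟨h1, h2⟩ := hcon
      have h3 : inner ℝ (w - (2 * k) • s₀) s₀ = (0 : ℝ) := by rw [h1, inner_zero_left]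
      rw [inner_sub_left, real_inner_smul_left, hws₀, hin0] at h3
      have hk0 : k = 0 := by
        have h4 : k * ρ ^ 2 = 0 := by linarith
        exact (mul_eq_zero.1 h4).resolve_right (by positivity)
      have hw0 : w = 0 := by
        rw [hk0] at h1
        simpa using h1
      have hv0 : v = 0 := by
        have h4 : b.repr.symm v = 0 := by
          apply Subtype.ext
          exact hw0
        simpa using h4
      have ha0 : a = 0 := by
        rw [hk0] at h2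
        linarith
      have hc0 : c = 0 := by
        rw [hk0, ha0] at hk
        simp at hk
        exact hk.symm
      rcases hne with h | h | h
      · exact h ha0
      · exact h hv0
      · exact h hc0
    have hfin := hh (w - (2 * k) • s₀) (-a - 2 * ρ ^ 2 * k) hVC
    have hfin2 : ((fun i : ℕ => i + 1) ⁻¹' {i | inner ℝ (f i) (w - (2 * k) • s₀) =
        -a - 2 * ρ ^ 2 * k}).Finite :=
      hfin.preimage (fun i _ j _ h => by simpa using h)
    refine hfin2.subset ?_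
    intro i hi
    have h1 : a * ‖g i‖ ^ 2 + inner ℝ (g i) v + c = 0 := hi
    rw [hgn, hgv] at h1
    show inner ℝ (f (i + 1)) (w - (2 * k) • s₀) = -a - 2 * ρ ^ 2 * k
    rw [inner_sub_right, real_inner_smul_right]
    have h2 := hxsq i
    have h3 := hxn i
    have h4 : ‖x i‖ ^ 2 ≠ 0 := by positivity
    have h5 : a * (1 / ‖x i‖ ^ 2 - 1 / (4 * ρ ^ 2)) + inner ℝ (f (i + 1)) w / ‖x i‖ ^ 2 + c =
        (a + inner ℝ (f (i + 1)) w + k * ‖x i‖ ^ 2) / ‖x i‖ ^ 2 := by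
      rw [hk]
      field_simp
      ring
    rw [h5, div_eq_zero_iff] at h1
    have h6 := h1.resolve_right h4
    rw [h2] at h6
    linarith

end Pool.Agent.EGP
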