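import Pool.Agent.EGP.SphereSet
import Pool.Agent.EGP.Invert
import Pool.Agent.EGP.Greedy

/-!
Final: the theorem.

PROOF.  Odd `n = 2N - 1`, `N ≥ 2`: `sphere_set N` and `invert` (`m + 1 = 2N`, `m = n`) give `g`.  Apply `greedy` with `d = n + 1`,
`F i = (g i, 1)` (`Fin.snoc` / `Fin.cons`) and `e = n + 2`, `G i = (g i, ‖g i‖^2, 1)`; finiteness from `invert` (`a = 0`, respectively general
`a`).  `S = g '' T`.  A hyperplane `⟪x, v⟫ = c`, `v ≠ 0`, corresponds to the vector `(v, -c) ≠ 0`, a sphere `dist x z = r` to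
`‖x‖^2 - 2 ⟪x, z⟫ + ‖z‖^2 - r^2 = 0`, i.e. the vector `(-2z, 1, ‖z‖^2 - r^2) ≠ 0`.  The intersection is the image of the index set under the
injective map `g`; it is finite by `hF`, `hG`.
Even `n = 2N`, `N ≥ 1`: `sphere_set N` gives `f`; `greedy` with `F i = (f i, 1)`, `d = n + 1` (and the same map for `G`), finiteness from
`sphere_set`.  `S = f '' T`.
-/

namespace Pool.Agent.EGP

/-- The vector `(x, 1)`. -/
private noncomputable def ext1 {n : ℕ} (x : EuclideanSpace ℝ (Fin n)) : Fin (n + 1) → ℝ :=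
  Fin.snoc (α := fun _ => ℝ) (fun k => x k) 1

/-- The vector `(x, ‖x‖^2, 1)`. -/
private noncomputable def ext2 {n : ℕ} (x : EuclideanSpace ℝ (Fin n)) : Fin (n + 2) → ℝ :=
  Fin.snoc (α := fun _ => ℝ) (Fin.snoc (α := fun _ => ℝ) (fun k => x k) (‖x‖ ^ 2)) 1

private lemma inner_eq {n : ℕ} (x : EuclideanSpace ℝ (Fin n)) (w : Fin n → ℝ) :
    inner ℝ x (WithLp.toLp 2 w) = ∑ k, x k * w k := by
  simp [PiLp.inner_apply, mul_comm]

private lemma ext1_dot {n : ℕ} (x : EuclideanSpace ℝ (Fin n)) (V : Fin (n + 1) → ℝ) :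
    ext1 x ⬝ᵥ V = inner ℝ x (WithLp.toLp 2 (fun k => V (Fin.castSucc k))) + V (Fin.last n) := by
  rw [inner_eq]
  simp [dotProduct, Fin.sum_univ_castSucc, ext1]

private lemma ext2_dot {n : ℕ} (x : EuclideanSpace ℝ (Fin n)) (V : Fin (n + 2) → ℝ) :
    ext2 x ⬝ᵥ V = V (Fin.castSucc (Fin.last n)) * ‖x‖ ^ 2 +
      inner ℝ x (WithLp.toLp 2 (fun k => V (Fin.castSucc (Fin.castSucc k)))) +
      V (Fin.last (n + 1)) := by
  rw [inner_eq]
  simp only [dotProduct, Fin.sum_univ_castSucc, ext2, Fin.snoc_castSucc, Fin.snoc_last]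
  ring

private lemma assemble {n e : ℕ} (he : 1 ≤ e) (g : ℕ → EuclideanSpace ℝ (Fin n))
    (hg : Function.Injective g) (hr : ∀ i j, ∃ q : ℚ, dist (g i) (g j) = q)
    (hh : ∀ (v : EuclideanSpace ℝ (Fin n)) (c : ℝ), (v ≠ 0 ∨ c ≠ 0) →
      {i | inner ℝ (g i) v + c = 0}.Finite)
    (G : ℕ → Fin e → ℝ) (hG : ∀ v : Fin e → ℝ, v ≠ 0 → {i | G i ⬝ᵥ v = 0}.Finite) :
    ∃ T : Set ℕ, T.Infinite ∧
      (∀ x ∈ g '' T, ∀ y ∈ g '' T, ∃ q : ℚ, dist x y = q) ∧
      (∀ (v : EuclideanSpace ℝ (Fin n)) (c : ℝ), v ≠ 0 →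
        {x | x ∈ g '' T ∧ inner ℝ x v = c}.Finite ∧ {x | x ∈ g '' T ∧ inner ℝ x v = c}.ncard ≤ n) ∧
      (∀ v : Fin e → ℝ, v ≠ 0 →
        {i | i ∈ T ∧ G i ⬝ᵥ v = 0}.Finite ∧ {i | i ∈ T ∧ G i ⬝ᵥ v = 0}.ncard ≤ e - 1) := by
  have hF : ∀ V : Fin (n + 1) → ℝ, V ≠ 0 → {i | ext1 (g i) ⬝ᵥ V = 0}.Finite := by
    intro V hV
    have h := hh (WithLp.toLp 2 (fun k => V (Fin.castSucc k))) (V (Fin.last n)) (by
      by_contra hcon
      push Not at hcon
      apply hV
      funext k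
      refine Fin.lastCases ?_ (fun k => ?_) k
      · simpa using hcon.2
      · have := congrArg (fun z : EuclideanSpace ℝ (Fin n) => z k) hcon.1
        simpa using this)
    refine h.subset ?_
    intro i hi
    simp only [Set.mem_ofPred_eq] at hi ⊢
    rw [ext1_dot] at hi
    exact hi
  obtain ⟨T, hT, h1, h2⟩ := greedy (d := n + 1) (e := e) (by omega) he (fun i => ext1 (g i)) G hF hG
  refine ⟨T, hT, ?_, ?_, ?_⟩
  · rintro _ ⟨i, _, rfl⟩ _ ⟨j, _, rfl⟩
    exact hr i j
  · intro v c hv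
    have key : {x | x ∈ g '' T ∧ inner ℝ x v = c} =
        g '' {i | i ∈ T ∧ ext1 (g i) ⬝ᵥ (Fin.snoc (α := fun _ => ℝ) (fun k => v k) (-c)) = 0} := by
      ext x
      constructor
      · rintro ⟨⟨i, hi, rfl⟩, hc⟩
        refine ⟨i, ⟨hi, ?_⟩, rfl⟩
        rw [ext1_dot]
        simp only [Fin.snoc_castSucc, Fin.snoc_last]
        have : (WithLp.toLp 2 (fun k => v k) : EuclideanSpace ℝ (Fin n)) = v := rfl
        rw [this, hc]; ring
      · rintro ⟨i, ⟨hi, hc⟩, rfl⟩
        refine ⟨⟨i, hi, rfl⟩, ?_⟩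
        rw [ext1_dot] at hc
        simp only [Fin.snoc_castSucc, Fin.snoc_last] at hc
        have : (WithLp.toLp 2 (fun k => v k) : EuclideanSpace ℝ (Fin n)) = v := rfl
        rw [this] at hc
        linarith
    have hV : (Fin.snoc (α := fun _ => ℝ) (fun k => v k) (-c) : Fin (n + 1) → ℝ) ≠ 0 := by
      intro h0
      apply hv
      ext k
      have := congrFun h0 (Fin.castSucc k)
      simpa using this
    rw [key]
    constructor
    · refine Set.Finite.image _ ((hF _ hV).subset ?_)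
      intro i hi
      exact hi.2
    · rw [Set.ncard_image_of_injective _ hg]
      simpa using h1 _ hV
  · intro v hv
    exact ⟨(hG v hv).subset (fun i hi => hi.2), h2 v hv⟩

theorem main (n : ℕ) (hn : 2 ≤ n) : ∃ S : Set (EuclideanSpace ℝ (Fin n)), S.Infinite ∧
    (∀ x ∈ S, ∀ y ∈ S, ∃ q : ℚ, dist x y = q) ∧
    (∀ (v : EuclideanSpace ℝ (Fin n)) (c : ℝ), v ≠ 0 →
      {x | x ∈ S ∧ inner ℝ x v = c}.Finite ∧ {x | x ∈ S ∧ inner ℝ x v = c}.ncard ≤ n) ∧
    (Odd n → ∀ (z : EuclideanSpace ℝ (Fin n)) (r : ℝ),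
      {x | x ∈ S ∧ dist x z = r}.Finite ∧ {x | x ∈ S ∧ dist x z = r}.ncard ≤ n + 1) := by
  rcases Nat.even_or_odd' n with ⟨k, hk | hk⟩
  · subst hk
    obtain ⟨f, ρ, hf, _, _, hr, hh⟩ := sphere_set k (by omega)
    have hh' : ∀ (v : EuclideanSpace ℝ (Fin (2 * k))) (c : ℝ), (v ≠ 0 ∨ c ≠ 0) →
        {i | inner ℝ (f i) v + c = 0}.Finite := by
      intro v c hvc
      refine (hh v (-c) (by simpa using hvc)).subset ?_
      intro i hi
      simp only [Set.mem_ofPred_eq] at hi ⊢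
      linarith
    obtain ⟨T, hT, h1, h2, _⟩ := assemble (e := 1) le_rfl f hf hr hh' (fun _ _ => 1) (by
      intro v hv
      have h0 : v 0 ≠ 0 := by
        intro h0
        apply hv
        funext k
        rw [Subsingleton.elim k 0, h0]; rfl
      refine Set.Finite.subset (Set.finite_empty) ?_
      intro i hi
      simp [dotProduct] at hi
      exact (h0 hi).elim)
    refine ⟨f '' T, hT.image hf.injOn, h1, h2, ?_⟩
    intro hodd
    exact absurd hodd (by simp)
  · obtain ⟨f, ρ, hf, hρ, hs, hr, hh⟩ := sphere_set (k + 1) (by omega)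
    have hN : 2 * (k + 1) = n + 1 := by omega
    revert f
    rw [hN]
    intro f hf hs hr hh
    obtain ⟨g, hg, hgr, hgh⟩ := invert hf hρ hs hr hh
    have hh' : ∀ (v : EuclideanSpace ℝ (Fin n)) (c : ℝ), (v ≠ 0 ∨ c ≠ 0) →
        {i | inner ℝ (g i) v + c = 0}.Finite := by
      intro v c hvc
      refine (hgh 0 v c (by tauto)).subset ?_
      intro i hi
      simp only [Set.mem_ofPred_eq] at hi ⊢
      linarith
    have hG : ∀ V : Fin (n + 2) → ℝ, V ≠ 0 → {i | ext2 (g i) ⬝ᵥ V = 0}.Finite := by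
      intro V hV
      have h := hgh (V (Fin.castSucc (Fin.last n)))
        (WithLp.toLp 2 (fun k => V (Fin.castSucc (Fin.castSucc k)))) (V (Fin.last (n + 1))) (by
          by_contra hcon
          push Not at hcon
          apply hV
          funext k
          refine Fin.lastCases ?_ (fun k => ?_) k
          · simpa using hcon.2.2
          · refine Fin.lastCases ?_ (fun k => ?_) k
            · simpa using hcon.1
            · have := congrArg (fun z : EuclideanSpace ℝ (Fin n) => z k) hcon.2.1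
              simpa using this)
      refine h.subset ?_
      intro i hi
      simp only [Set.mem_ofPred_eq] at hi ⊢
      rw [ext2_dot] at hi
      exact hi
    obtain ⟨T, hT, h1, h2, h3⟩ := assemble (e := n + 2) (by omega) g hg hgr hh'
      (fun i => ext2 (g i)) hG
    refine ⟨g '' T, hT.image hg.injOn, h1, h2, ?_⟩
    intro _ z r
    by_cases hr0 : r < 0
    · have : {x | x ∈ g '' T ∧ dist x z = r} = ∅ := by
        ext x
        simp only [Set.mem_ofPred_eq, Set.mem_empty_iff_false, iff_false, not_and]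
        intro _ h
        have := dist_nonneg (x := x) (y := z)
        linarith
      rw [this]
      simp
    push Not at hr0
    set V : Fin (n + 2) → ℝ := Fin.snoc (α := fun _ => ℝ)
      (Fin.snoc (α := fun _ => ℝ) (fun k => (-2) * z k) 1) (‖z‖ ^ 2 - r ^ 2) with hVdef
    have hV : V ≠ 0 := by
      intro h0
      have := congrFun h0 (Fin.castSucc (Fin.last n))
      simp [hVdef] at this
    have hdot : ∀ x : EuclideanSpace ℝ (Fin n), ext2 x ⬝ᵥ V = dist x z ^ 2 - r ^ 2 := by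
      intro x
      rw [ext2_dot]
      simp only [hVdef, Fin.snoc_castSucc, Fin.snoc_last]
      rw [inner_eq]
      have e1 : ∑ k, x k * ((-2) * z k) = (-2) * inner ℝ x z := by
        have : inner ℝ x z = ∑ k, x k * z k := by
          simp [PiLp.inner_apply, mul_comm]
        rw [this, Finset.mul_sum]
        exact Finset.sum_congr rfl (fun k _ => by ring)
      rw [e1, dist_eq_norm, norm_sub_sq_real]
      ring
    have key : {x | x ∈ g '' T ∧ dist x z = r} =
        g '' {i | i ∈ T ∧ ext2 (g i) ⬝ᵥ V = 0} := by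
      ext x
      constructor
      · rintro ⟨⟨i, hi, rfl⟩, hc⟩
        refine ⟨i, ⟨hi, ?_⟩, rfl⟩
        rw [hdot, hc]; ring
      · rintro ⟨i, ⟨hi, hc⟩, rfl⟩
        refine ⟨⟨i, hi, rfl⟩, ?_⟩
        rw [hdot] at hc
        have h2 : dist (g i) z ^ 2 = r ^ 2 := by linarith
        exact (pow_left_inj₀ dist_nonneg hr0 (by norm_num)).1 h2
    obtain ⟨h4, h5⟩ := h3 V hV
    rw [key]
    exact ⟨h4.image _, by
      rw [Set.ncard_image_of_injective _ hg]
      simpa using h5⟩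

end Pool.Agent.EGP
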