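import Pool.Agent.EGP.Defs

/-!
Ident: the trigonometric identity, in terms of a complex number `ζ` of absolute value one.

PROOF.  For `a ≥ c` (naturals): `Im ζ^a * Im ζ^c = (Re ζ^(a-c) - Re ζ^(a+c)) / 2` and `(Im ζ^k)^2 = (1 - Re ζ^(2k)) / 2`
(`ζ conj ζ = 1`; or write `ζ = exp (i θ)`).  Hence for `i ≤ j`:
`Im ζ^(2i+1) Im ζ^(2j+1) = (Im ζ^(i+j+1))^2 - (Im ζ^(j-i))^2`.  Expand the square as the double sum over `i, j < J`; the pairs with
`i = j` contribute `b_i^2 (Im ζ^(2i+1))^2`, the pairs `i < j` and `j < i` each `b_i b_j` times the right hand side.  Collect the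
terms according to `k = i + j + 1` and `k = |i - j|` (both `< 2J`): `Finset.sum_comm` with the indicator functions in `A`.
-/

namespace Pool.Agent.EGP

private lemma sin_mul_sin (t : ℝ) {i j : ℕ} (h : i ≤ j) :
    Real.sin ((2 * i + 1 : ℕ) * t) * Real.sin ((2 * j + 1 : ℕ) * t) =
      Real.sin ((i + j + 1 : ℕ) * t) ^ 2 - Real.sin ((j - i : ℕ) * t) ^ 2 := by
  have e1 : ((2 * i + 1 : ℕ) : ℝ) * t = (i + j + 1 : ℕ) * t - (j - i : ℕ) * t := by
    rw [Nat.cast_sub h]; push_cast; ring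
  have e2 : ((2 * j + 1 : ℕ) : ℝ) * t = (i + j + 1 : ℕ) * t + (j - i : ℕ) * t := by
    rw [Nat.cast_sub h]; push_cast; ring
  rw [e1, e2, Real.sin_add, Real.sin_sub]
  have h1 := Real.sin_sq_add_cos_sq ((i + j + 1 : ℕ) * t)
  have h2 := Real.sin_sq_add_cos_sq ((j - i : ℕ) * t)
  generalize Real.sin ((i + j + 1 : ℕ) * t) = s at *
  generalize Real.cos ((i + j + 1 : ℕ) * t) = c at *
  generalize Real.sin ((j - i : ℕ) * t) = u at *
  generalize Real.cos ((j - i : ℕ) * t) = v at *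
  have h3 : v ^ 2 = 1 - u ^ 2 := by linarith
  have h4 : c ^ 2 = 1 - s ^ 2 := by linarith
  have : (s * v - c * u) * (s * v + c * u) = s ^ 2 * v ^ 2 - c ^ 2 * u ^ 2 := by ring
  rw [this, h3, h4]; ring

private lemma collect (J : ℕ) (S : ℕ → ℝ) (x : ℕ → ℕ → ℝ) (q : ℕ → ℕ → Prop) (r : ℕ → ℕ → ℕ)
    [∀ i j, Decidable (q i j)] (hr : ∀ i < J, ∀ j < J, r i j < 2 * J) :
    ∑ k ∈ Finset.range (2 * J), (∑ i ∈ Finset.range J, ∑ j ∈ Finset.range J,
        if q i j ∧ r i j = k then x i j else 0) * S k =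
      ∑ i ∈ Finset.range J, ∑ j ∈ Finset.range J, if q i j then x i j * S (r i j) else 0 := by
  simp_rw [Finset.sum_mul]
  rw [Finset.sum_comm]
  refine Finset.sum_congr rfl fun i hi => ?_
  rw [Finset.sum_comm]
  refine Finset.sum_congr rfl fun j hj => ?_
  by_cases hq : q i j
  · simp only [hq, true_and, if_true]
    rw [Finset.sum_eq_single (r i j)]
    · simp
    · intro k _ hk
      rw [if_neg (Ne.symm hk), zero_mul]
    · intro h
      exact absurd (Finset.mem_range.2 (hr i (Finset.mem_range.1 hi) j (Finset.mem_range.1 hj))) h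
  · simp [hq]

theorem ident (b : ℕ → ℚ) (J : ℕ) {ζ : ℂ} (hζ : ‖ζ‖ = 1) :
    (∑ j ∈ Finset.range J, (b j : ℝ) * (ζ ^ (2 * j + 1)).im) ^ 2 =
      ∑ k ∈ Finset.range (2 * J), (A b J k : ℝ) * ((ζ ^ k).im) ^ 2 := by
  obtain ⟨t, ht⟩ : ∃ t : ℝ, ζ = Complex.exp (t * Complex.I) := by
    refine ⟨ζ.arg, ?_⟩
    have := Complex.norm_mul_exp_arg_mul_I ζ
    rw [hζ] at this
    simpa using this.symm
  have him : ∀ k : ℕ, (ζ ^ k).im = Real.sin (k * t) := by
    intro k
    rw [ht, ← Complex.exp_nat_mul, show (k : ℂ) * (t * Complex.I) = ((k * t : ℝ) : ℂ) * Complex.I by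
      push_cast; ring, Complex.exp_ofReal_mul_I_im]
  simp_rw [him]
  set S : ℕ → ℝ := fun k => Real.sin (k * t) ^ 2 with hS
  set D : ℕ → ℕ → ℕ := fun i j => if i ≤ j then j - i else i - j with hD
  have hS0 : S 0 = 0 := by simp [hS]
  have hmul : ∀ i j : ℕ, Real.sin ((2 * i + 1 : ℕ) * t) * Real.sin ((2 * j + 1 : ℕ) * t) =
      S (i + j + 1) - S (D i j) := by
    intro i j
    simp only [hS, hD]
    split_ifs with h
    · exact sin_mul_sin t h
    · rw [mul_comm, sin_mul_sin t (le_of_not_ge h), add_comm i j]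
  have hL : (∑ j ∈ Finset.range J, (b j : ℝ) * Real.sin ((2 * j + 1 : ℕ) * t)) ^ 2 =
      (∑ i ∈ Finset.range J, ∑ j ∈ Finset.range J, (b i * b j : ℝ) * S (i + j + 1)) -
        ∑ i ∈ Finset.range J, ∑ j ∈ Finset.range J, (b i * b j : ℝ) * S (D i j) := by
    rw [sq, Finset.sum_mul_sum, ← Finset.sum_sub_distrib]
    refine Finset.sum_congr rfl fun i _ => ?_
    rw [← Finset.sum_sub_distrib]
    refine Finset.sum_congr rfl fun j _ => ?_
    rw [← mul_sub, ← hmul i j]; ring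
  have hA : ∀ k : ℕ, ((A b J k : ℚ) : ℝ) =
      (∑ i ∈ Finset.range J, ∑ j ∈ Finset.range J,
        if True ∧ i + j + 1 = k then (b i * b j : ℝ) else 0) -
      2 * ∑ i ∈ Finset.range J, ∑ j ∈ Finset.range J,
        if i < j ∧ j - i = k then (b i * b j : ℝ) else 0 := by
    intro k
    simp only [A, true_and]
    push_cast
    simp only [apply_ite (Rat.cast : ℚ → ℝ), Rat.cast_mul, Rat.cast_zero]
  have hR : ∑ k ∈ Finset.range (2 * J), ((A b J k : ℚ) : ℝ) * S k =
      (∑ i ∈ Finset.range J, ∑ j ∈ Finset.range J, (b i * b j : ℝ) * S (i + j + 1)) -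
        2 * ∑ i ∈ Finset.range J, ∑ j ∈ Finset.range J,
          if i < j then (b i * b j : ℝ) * S (j - i) else 0 := by
    simp_rw [hA, sub_mul, Finset.sum_sub_distrib, mul_assoc (2 : ℝ), ← Finset.mul_sum]
    rw [collect J S (fun i j => (b i * b j : ℝ)) (fun _ _ => True) (fun i j => i + j + 1)
        (fun i hi j hj => by omega),
      collect J S (fun i j => (b i * b j : ℝ)) (fun i j => i < j) (fun i j => j - i)
        (fun i hi j hj => by omega)]
    simp
  have hsym : ∑ i ∈ Finset.range J, ∑ j ∈ Finset.range J, (b i * b j : ℝ) * S (D i j) =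
      2 * ∑ i ∈ Finset.range J, ∑ j ∈ Finset.range J,
          if i < j then (b i * b j : ℝ) * S (j - i) else 0 := by
    have h1 : ∀ i j : ℕ, (b i * b j : ℝ) * S (D i j) =
        (if i < j then (b i * b j : ℝ) * S (j - i) else 0) +
          (if j < i then (b j * b i : ℝ) * S (i - j) else 0) := by
      intro i j
      simp only [hD]
      rcases lt_trichotomy i j with h | h | h
      · simp [h.le, h, not_lt.2 h.le]
      · subst h; simp [hS0]
      · simp [not_le.2 h, h, not_lt.2 h.le]; ring_nf; simp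
    simp_rw [h1, Finset.sum_add_distrib]
    rw [two_mul]
    congr 1
    rw [Finset.sum_comm]
  rw [hL, hsym, ← hR]

end Pool.Agent.EGP
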