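import Pool.Agent.EGP.Coeffs
import Pool.Agent.EGP.Ident

/-!
SphereSet: an infinite rational-distance set on a sphere of `E^{2N}`, with finite intersections with hyperplanes.

PROOF.  `coeffs N` gives `J`, `b`; `K = {k < 2J : A b J k ≠ 0}`, `card K = N`, `0 ∉ K` (`A b J 0 = 0`).  For `i : ℕ` let `q = 1 / (i + 2)` and
`w i = (1 + I q)^2 / (1 + q^2) ∈ ℂ`: absolute value `1`, rational real and imaginary part, and `w i = exp (2 I arctan q)`, so the
numbers `w i ^ 2` are pairwise different (`0 < 4 arctan q < π`, injective; or algebraically: the real part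
`(1 - q^2)/(1 + q^2)` of `w i` is positive and determines `q > 0`, and `w^2 = w'^2` implies `w' = ± w`).
Point: `f i` with the `2N` real coordinates `√(A_k) Re (w i ^ (2k))`, `√(A_k) Im (w i ^ (2k))`, `k ∈ K` (identify `K × Fin 2` with `Fin (2N)`,
e.g. `LinearIsometryEquiv.piLpCongrLeft`, or work in any real inner product space of dimension `2N` and use
`stdOrthonormalBasis`).
`‖f i‖^2 = ∑_{k ∈ K} A_k =: ρ^2 > 0`.
`dist (f i) (f j)^2 = ∑_k A_k |w^(2k) - w'^(2k)|^2 = 4 ∑_k A_k (Im ζ^k)^2 = (2 ∑_j b_j Im ζ^(2j+1))^2` with `ζ = w conj w'`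
(`|w^(2k) - w'^(2k)| = |ζ^k - conj ζ^k|` as `|w| = |w'| = 1`), by `ident`; `Im ζ^(2j+1)` is rational.
Hyperplanes: `⟪f i, v⟫ = c` reads `∑_{k ∈ K} Re (c_k (w i)^(2k)) = c` with `c_k = √A_k (v_k' - I v_k'')`.  With `x = (w i)^2`, `|x| = 1`, this is
`∑_k (c_k x^k + conj c_k x^(-k)) / 2 = c`; multiply by `x^(2J)`: a polynomial equation for `x` whose polynomial is not zero unless `v = 0`
and `c = 0` (the exponents `2J + k`, `2J - k`, `2J` are different, `k ≥ 1`).  So there are finitely many values `x`, and finitely many `i`.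
`f` is injective: `f i = f j` for some `i ≠ j` would give ... simply choose `k ∈ K` minimal?  Not needed: injectivity of `f` follows
after discarding indices: every point is taken only finitely often (a point lies on a hyperplane with `v ≠ 0`), so there is
an infinite set of indices on which `f` is injective; re-enumerate (`Nat.Subtype.orderIsoOfNat` or `Nat.nth`).
-/

namespace Pool.Agent.EGP

namespace SphereSet

/-- Rational real and imaginary part. -/
def RatC (z : ℂ) : Prop := ∃ p q : ℚ, z.re = p ∧ z.im = q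

theorem RatC.mul {z w : ℂ} (hz : RatC z) (hw : RatC w) : RatC (z * w) := by
  obtain ⟨a, b, ha, hb⟩ := hz
  obtain ⟨c, d, hc, hd⟩ := hw
  refine ⟨a * c - b * d, a * d + b * c, ?_, ?_⟩
  · rw [Complex.mul_re, ha, hb, hc, hd]; push_cast; ring
  · rw [Complex.mul_im, ha, hb, hc, hd]; push_cast; ring

theorem RatC.pow {z : ℂ} (hz : RatC z) (n : ℕ) : RatC (z ^ n) := by
  induction n with
  | zero => exact ⟨1, 0, by simp, by simp⟩
  | succ n ih => rw [pow_succ]; exact ih.mul hz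

theorem RatC.conj {z : ℂ} (hz : RatC z) : RatC ((starRingEnd ℂ) z) := by
  obtain ⟨a, b, ha, hb⟩ := hz
  exact ⟨a, -b, by simp [ha], by simp [hb]⟩

/-- The points on the unit circle. -/
noncomputable def w (i : ℕ) : ℂ :=
  ⟨(((i : ℝ) + 2) ^ 2 - 1) / (((i : ℝ) + 2) ^ 2 + 1), 2 * ((i : ℝ) + 2) / (((i : ℝ) + 2) ^ 2 + 1)⟩

theorem w_rat (i : ℕ) : RatC (w i) := by
  refine ⟨(((i : ℚ) + 2) ^ 2 - 1) / (((i : ℚ) + 2) ^ 2 + 1), 2 * ((i : ℚ) + 2) / (((i : ℚ) + 2) ^ 2 + 1), ?_, ?_⟩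
  · simp only [w]; push_cast; rfl
  · simp only [w]; push_cast; rfl

theorem w_norm (i : ℕ) : ‖w i‖ = 1 := by
  have h : Complex.normSq (w i) = 1 := by
    rw [Complex.normSq_apply]
    simp only [w]
    have : ((i : ℝ) + 2) ^ 2 + 1 ≠ 0 := by positivity
    field_simp
    ring
  rw [Complex.normSq_eq_norm_sq] at h
  have h0 : 0 ≤ ‖w i‖ := norm_nonneg _
  nlinarith

theorem w_re_pos (i : ℕ) : 0 < (w i).re := by
  simp only [w]
  apply div_pos
  · have : (0 : ℝ) ≤ i := Nat.cast_nonneg i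
    nlinarith
  · positivity

theorem w_inj {i j : ℕ} (h : w i = w j) : i = j := by
  have h1 : (w i).re = (w j).re := by rw [h]
  simp only [w] at h1
  have hi : (0 : ℝ) ≤ i := Nat.cast_nonneg i
  have hj : (0 : ℝ) ≤ j := Nat.cast_nonneg j
  rw [div_eq_div_iff (by positivity) (by positivity)] at h1
  have h2 : ((i : ℝ) + 2) ^ 2 = ((j : ℝ) + 2) ^ 2 := by nlinarith
  have h3 : (i : ℝ) + 2 = (j : ℝ) + 2 := by
    rcases sq_eq_sq_iff_eq_or_eq_neg.mp h2 with h | h
    · exact h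
    · nlinarith
  have h4 : (i : ℝ) = j := by linarith
  exact_mod_cast h4

theorem w_sq_inj {i j : ℕ} (h : w i ^ 2 = w j ^ 2) : i = j := by
  rcases sq_eq_sq_iff_eq_or_eq_neg.mp h with h | h
  · exact w_inj h
  · exfalso
    have h1 := w_re_pos i
    have h2 := w_re_pos j
    rw [h, Complex.neg_re] at h1
    linarith

theorem dist_id {a c : ℂ} (ha : ‖a‖ = 1) (hc : ‖c‖ = 1) :
    ((a ^ 2).re - (c ^ 2).re) ^ 2 + ((a ^ 2).im - (c ^ 2).im) ^ 2 =
      4 * ((a * (starRingEnd ℂ) c).im) ^ 2 := by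
  have h1 : a.re * a.re + a.im * a.im = 1 := by
    rw [← Complex.normSq_apply, Complex.normSq_eq_norm_sq, ha]; norm_num
  have h2 : c.re * c.re + c.im * c.im = 1 := by
    rw [← Complex.normSq_apply, Complex.normSq_eq_norm_sq, hc]; norm_num
  simp only [pow_two, Complex.mul_re, Complex.mul_im, Complex.conj_re, Complex.conj_im]
  linear_combination (a.re * a.re + a.im * a.im - (c.re * c.re + c.im * c.im)) * (h1 - h2)

theorem A_zero (b : ℕ → ℚ) (J : ℕ) : A b J 0 = 0 := by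
  unfold A
  have h1 : (∑ i ∈ Finset.range J, ∑ j ∈ Finset.range J, if i + j + 1 = 0 then b i * b j else 0) = 0 := by
    refine Finset.sum_eq_zero fun i _ => Finset.sum_eq_zero fun j _ => ?_
    rw [if_neg (by omega)]
  have h2 : (∑ i ∈ Finset.range J, ∑ j ∈ Finset.range J,
      if i < j ∧ j - i = 0 then b i * b j else 0) = 0 := by
    refine Finset.sum_eq_zero fun i _ => Finset.sum_eq_zero fun j _ => ?_
    rw [if_neg (by omega)]
  rw [h1, h2]; norm_num

/-- The set of frequencies. -/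
def K (b : ℕ → ℚ) (J : ℕ) : Finset ℕ := (Finset.range (2 * J)).filter fun k => A b J k ≠ 0

theorem K_lt {b : ℕ → ℚ} {J k : ℕ} (hk : k ∈ K b J) : k < 2 * J := by
  have := (Finset.mem_filter.mp hk).1
  exact Finset.mem_range.mp this

theorem K_ne {b : ℕ → ℚ} {J k : ℕ} (hk : k ∈ K b J) : A b J k ≠ 0 := (Finset.mem_filter.mp hk).2

theorem K_pos {b : ℕ → ℚ} {J k : ℕ} (hk : k ∈ K b J) : 0 < k := by
  rcases Nat.eq_zero_or_pos k with h | h
  · exact absurd (A_zero b J) (h ▸ K_ne hk)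
  · exact h

/-- The points in coordinates indexed by the frequencies. -/
noncomputable def g (b : ℕ → ℚ) (J i : ℕ) : EuclideanSpace ℝ (↥(K b J) × Fin 2) :=
  WithLp.toLp 2 fun p => √(A b J p.1 : ℝ) *
    (if p.2 = 0 then (w i ^ (2 * (p.1 : ℕ))).re else (w i ^ (2 * (p.1 : ℕ))).im)

theorem g_apply (b : ℕ → ℚ) (J i : ℕ) (p : ↥(K b J) × Fin 2) : g b J i p = √(A b J p.1 : ℝ) *
    (if p.2 = 0 then (w i ^ (2 * (p.1 : ℕ))).re else (w i ^ (2 * (p.1 : ℕ))).im) := rfl

theorem g_norm (b : ℕ → ℚ) (J : ℕ) (hA : ∀ k, 0 ≤ A b J k) (i : ℕ) :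
    ‖g b J i‖ ^ 2 = ∑ k : ↥(K b J), (A b J k : ℝ) := by
  rw [EuclideanSpace.norm_sq_eq, Fintype.sum_prod_type]
  refine Finset.sum_congr rfl fun k _ => ?_
  rw [Fin.sum_univ_two, g_apply, g_apply]
  have hk : (0 : ℝ) ≤ A b J k := by exact_mod_cast hA k
  have hn : (w i ^ (2 * (k : ℕ))).re * (w i ^ (2 * (k : ℕ))).re +
      (w i ^ (2 * (k : ℕ))).im * (w i ^ (2 * (k : ℕ))).im = 1 := by
    rw [← Complex.normSq_apply, Complex.normSq_eq_norm_sq, norm_pow, w_norm]; norm_num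
  simp only [if_true, one_ne_zero, if_false, Real.norm_eq_abs, sq_abs, mul_pow, Real.sq_sqrt hk]
  linear_combination (A b J k : ℝ) * hn

theorem g_dist (b : ℕ → ℚ) (J : ℕ) (hA : ∀ k, 0 ≤ A b J k) (i j : ℕ) :
    dist (g b J i) (g b J j) ^ 2 = (2 * ∑ l ∈ Finset.range J, (b l : ℝ) *
      ((w i * (starRingEnd ℂ) (w j)) ^ (2 * l + 1)).im) ^ 2 := by
  have hz : ‖w i * (starRingEnd ℂ) (w j)‖ = 1 := by
    rw [norm_mul, RCLike.norm_conj, w_norm, w_norm, mul_one]
  rw [mul_pow, ident b J hz, dist_eq_norm, EuclideanSpace.norm_sq_eq, Fintype.sum_prod_type]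
  have h1 : ∑ k ∈ Finset.range (2 * J), (A b J k : ℝ) * (((w i * (starRingEnd ℂ) (w j)) ^ k).im) ^ 2 =
      ∑ k : ↥(K b J), (A b J k : ℝ) * (((w i * (starRingEnd ℂ) (w j)) ^ (k : ℕ)).im) ^ 2 := by
    rw [Finset.sum_coe_sort (K b J)
      (fun k => (A b J k : ℝ) * (((w i * (starRingEnd ℂ) (w j)) ^ k).im) ^ 2)]
    unfold K
    rw [Finset.sum_filter_of_ne]
    intro k _ hne h0
    apply hne
    rw [h0]; simp
  rw [h1, Finset.mul_sum]
  refine Finset.sum_congr rfl fun k _ => ?_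
  have hk : (0 : ℝ) ≤ A b J k := by exact_mod_cast hA k
  have h2 := dist_id (a := w i ^ (k : ℕ)) (c := w j ^ (k : ℕ)) (by rw [norm_pow, w_norm, one_pow])
    (by rw [norm_pow, w_norm, one_pow])
  rw [mul_pow (w i) _ (k : ℕ), ← map_pow]
  rw [← pow_mul, ← pow_mul, mul_comm (k : ℕ) 2] at h2
  rw [Fin.sum_univ_two]
  simp only [PiLp.sub_apply, g_apply, if_true, one_ne_zero, if_false, Real.norm_eq_abs, sq_abs]
  rw [← mul_sub, ← mul_sub, mul_pow, mul_pow, Real.sq_sqrt hk]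
  linear_combination (A b J k : ℝ) * h2

/-- The polynomial whose roots include the points of a hyperplane section. -/
noncomputable def pol (b : ℕ → ℚ) (J : ℕ) (v : ↥(K b J) × Fin 2 → ℝ) (c : ℝ) : Polynomial ℂ :=
  ∑ k : ↥(K b J), (Polynomial.C ((√(A b J k : ℝ) : ℂ) * ((v (k, 0) : ℂ) - Complex.I * (v (k, 1) : ℂ)) / 2) *
      Polynomial.X ^ (2 * J + (k : ℕ)) +
    Polynomial.C ((√(A b J k : ℝ) : ℂ) * ((v (k, 0) : ℂ) + Complex.I * (v (k, 1) : ℂ)) / 2) *
      Polynomial.X ^ (2 * J - (k : ℕ))) - Polynomial.C (c : ℂ) * Polynomial.X ^ (2 * J)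

theorem pol_coeff_mid (b : ℕ → ℚ) (J : ℕ) (v : ↥(K b J) × Fin 2 → ℝ) (c : ℝ) :
    (pol b J v c).coeff (2 * J) = -(c : ℂ) := by
  unfold pol
  rw [Polynomial.coeff_sub, Polynomial.finsetSum_coeff, Polynomial.coeff_C_mul, Polynomial.coeff_X_pow,
    if_pos rfl, mul_one]
  rw [Finset.sum_eq_zero, zero_sub]
  intro k _
  have h1 := K_pos k.2
  have h2 := K_lt k.2
  rw [Polynomial.coeff_add, Polynomial.coeff_C_mul, Polynomial.coeff_C_mul, Polynomial.coeff_X_pow,
    Polynomial.coeff_X_pow, if_neg (by omega), if_neg (by omega)]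
  simp

theorem pol_coeff_up (b : ℕ → ℚ) (J : ℕ) (v : ↥(K b J) × Fin 2 → ℝ) (c : ℝ) (k0 : ↥(K b J)) :
    (pol b J v c).coeff (2 * J + (k0 : ℕ)) =
      (√(A b J k0 : ℝ) : ℂ) * ((v (k0, 0) : ℂ) - Complex.I * (v (k0, 1) : ℂ)) / 2 := by
  have h0 := K_pos k0.2
  unfold pol
  rw [Polynomial.coeff_sub, Polynomial.finsetSum_coeff, Polynomial.coeff_C_mul, Polynomial.coeff_X_pow,
    if_neg (by omega), mul_zero, sub_zero]
  rw [Finset.sum_eq_single k0]
  · rw [Polynomial.coeff_add, Polynomial.coeff_C_mul, Polynomial.coeff_C_mul, Polynomial.coeff_X_pow,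
      Polynomial.coeff_X_pow, if_pos rfl, if_neg (by omega)]
    simp
  · intro k _ hne
    have hne' : (k : ℕ) ≠ (k0 : ℕ) := fun h => hne (Subtype.ext h)
    rw [Polynomial.coeff_add, Polynomial.coeff_C_mul, Polynomial.coeff_C_mul, Polynomial.coeff_X_pow,
      Polynomial.coeff_X_pow, if_neg (by omega), if_neg (by omega)]
    simp
  · intro h; exact absurd (Finset.mem_univ _) h

theorem pol_ne_zero (b : ℕ → ℚ) (J : ℕ) (hA : ∀ k, 0 ≤ A b J k) (v : ↥(K b J) × Fin 2 → ℝ) (c : ℝ)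
    (h : v ≠ 0 ∨ c ≠ 0) : pol b J v c ≠ 0 := by
  intro h0
  have hc : c = 0 := by
    have := pol_coeff_mid b J v c
    rw [h0, Polynomial.coeff_zero] at this
    have h2 : (c : ℂ) = 0 := by linear_combination this
    exact_mod_cast h2
  have hv : v = 0 := by
    funext p
    obtain ⟨k, s⟩ := p
    have h1 := pol_coeff_up b J v c k
    rw [h0, Polynomial.coeff_zero] at h1
    have hk : (0 : ℝ) < A b J k := by
      have h3 : (0 : ℚ) < A b J k := lt_of_le_of_ne (hA k) (Ne.symm (K_ne k.2))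
      exact_mod_cast h3
    have hs : (√(A b J k : ℝ) : ℂ) ≠ 0 := by
      have : √(A b J k : ℝ) ≠ 0 := (Real.sqrt_pos.mpr hk).ne'
      exact_mod_cast this
    have h4 : (v (k, 0) : ℂ) - Complex.I * (v (k, 1) : ℂ) = 0 := by
      have h5 : (√(A b J k : ℝ) : ℂ) * ((v (k, 0) : ℂ) - Complex.I * (v (k, 1) : ℂ)) = 0 := by
        linear_combination -2 * h1
      exact (mul_eq_zero.mp h5).resolve_left hs
    have hre := congrArg Complex.re h4
    have him := congrArg Complex.im h4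
    simp at hre him
    fin_cases s
    · exact hre
    · exact him
  rcases h with h | h
  · exact h hv
  · exact h hc

theorem pol_eval (b : ℕ → ℚ) (J : ℕ) (v : EuclideanSpace ℝ (↥(K b J) × Fin 2)) (c : ℝ) (i : ℕ)
    (h : inner ℝ (g b J i) v = c) : (pol b J v c).eval (w i ^ 2) = 0 := by
  have hx : ‖w i ^ 2‖ = 1 := by rw [norm_pow, w_norm, one_pow]
  have hinner : (inner ℝ (g b J i) v : ℝ) = ∑ k : ↥(K b J), √(A b J k : ℝ) *
      ((w i ^ (2 * (k : ℕ))).re * v (k, 0) + (w i ^ (2 * (k : ℕ))).im * v (k, 1)) := by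
    rw [PiLp.inner_apply, Fintype.sum_prod_type]
    refine Finset.sum_congr rfl fun k _ => ?_
    rw [Fin.sum_univ_two, g_apply, g_apply]
    simp only [if_true, one_ne_zero, if_false, RCLike.inner_apply, conj_trivial]
    ring
  unfold pol
  rw [Polynomial.eval_sub, Polynomial.eval_finsetSum]
  simp only [Polynomial.eval_add, Polynomial.eval_mul, Polynomial.eval_C, Polynomial.eval_pow,
    Polynomial.eval_X]
  have hterm : ∀ k : ↥(K b J),
      (√(A b J k : ℝ) : ℂ) * ((v (k, 0) : ℂ) - Complex.I * (v (k, 1) : ℂ)) / 2 * (w i ^ 2) ^ (2 * J + (k : ℕ)) +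
      (√(A b J k : ℝ) : ℂ) * ((v (k, 0) : ℂ) + Complex.I * (v (k, 1) : ℂ)) / 2 * (w i ^ 2) ^ (2 * J - (k : ℕ)) =
      (w i ^ 2) ^ (2 * J) * ((√(A b J k : ℝ) *
      ((w i ^ (2 * (k : ℕ))).re * v (k, 0) + (w i ^ (2 * (k : ℕ))).im * v (k, 1)) : ℝ) : ℂ) := by
    intro k
    have h2 := K_lt k.2
    set z : ℂ := (w i ^ 2) ^ (k : ℕ) with hz
    have hzn : ‖z‖ = 1 := by rw [hz, norm_pow, hx, one_pow]
    have hzz : z * (starRingEnd ℂ) z = 1 := by
      rw [Complex.mul_conj, Complex.normSq_eq_norm_sq, hzn]; norm_num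
    have hsplit : (w i ^ 2) ^ (2 * J) = (w i ^ 2) ^ (2 * J - (k : ℕ)) * z := by
      rw [hz, ← pow_add]; congr 1; omega
    have hw : w i ^ (2 * (k : ℕ)) = z := by rw [hz, ← pow_mul]
    have hdown : (w i ^ 2) ^ (2 * J - (k : ℕ)) = (w i ^ 2) ^ (2 * J) * (starRingEnd ℂ) z := by
      rw [hsplit, mul_assoc, hzz, mul_one]
    have hup : (w i ^ 2) ^ (2 * J + (k : ℕ)) = (w i ^ 2) ^ (2 * J) * z := by
      rw [hz, ← pow_add]
    rw [hw, hdown, hup]
    have hre : ((z.re : ℝ) : ℂ) = (z + (starRingEnd ℂ) z) / 2 := by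
      rw [Complex.add_conj]; push_cast; ring
    have him : ((z.im : ℝ) : ℂ) = (z - (starRingEnd ℂ) z) / (2 * Complex.I) := by
      rw [Complex.sub_conj]; field_simp; push_cast; ring
    push_cast
    rw [hre, him]
    have hI : Complex.I ≠ 0 := Complex.I_ne_zero
    have hI2 : Complex.I * Complex.I = -1 := Complex.I_mul_I
    field_simp
    ring_nf
    simp only [Complex.I_sq]
    ring
  rw [Finset.sum_congr rfl fun k _ => hterm k, ← Finset.mul_sum, ← Complex.ofReal_sum, ← hinner, h]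
  ring

theorem g_hyper (b : ℕ → ℚ) (J : ℕ) (hA : ∀ k, 0 ≤ A b J k) (v : EuclideanSpace ℝ (↥(K b J) × Fin 2))
    (c : ℝ) (h : v ≠ 0 ∨ c ≠ 0) : {i | inner ℝ (g b J i) v = c}.Finite := by
  have hv : (v : ↥(K b J) × Fin 2 → ℝ) ≠ 0 ∨ c ≠ 0 := by
    rcases h with h | h
    · left
      intro h0
      apply h
      ext p
      exact congrFun h0 p
    · exact Or.inr h
  have hp := pol_ne_zero b J hA v c hv
  have hfin : {x : ℂ | (pol b J v c).IsRoot x}.Finite := Polynomial.finite_setOfPred_isRoot hp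
  refine Set.Finite.of_finite_image (f := fun i => w i ^ 2) (hfin.subset ?_) ?_
  · rintro _ ⟨i, hi, rfl⟩
    exact pol_eval b J v c i hi
  · intro i _ j _ hij
    exact w_sq_inj hij

end SphereSet

theorem sphere_set (N : ℕ) (hN : 1 ≤ N) : ∃ (f : ℕ → EuclideanSpace ℝ (Fin (2 * N))) (ρ : ℝ),
    Function.Injective f ∧ 0 < ρ ∧ (∀ i, ‖f i‖ = ρ) ∧ (∀ i j, ∃ q : ℚ, dist (f i) (f j) = q) ∧
      ∀ (v : EuclideanSpace ℝ (Fin (2 * N))) (c : ℝ), (v ≠ 0 ∨ c ≠ 0) →
        {i | inner ℝ (f i) v = c}.Finite := by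
  obtain ⟨J, b, hA, hcard⟩ := coeffs N hN
  have hc : Fintype.card (↥(SphereSet.K b J) × Fin 2) = 2 * N := by
    rw [Fintype.card_prod, Fintype.card_coe, Fintype.card_fin, mul_comm]
    congr 1
  let e : ↥(SphereSet.K b J) × Fin 2 ≃ Fin (2 * N) := Fintype.equivFinOfCardEq hc
  let T : EuclideanSpace ℝ (↥(SphereSet.K b J) × Fin 2) ≃ₗᵢ[ℝ] EuclideanSpace ℝ (Fin (2 * N)) :=
    LinearIsometryEquiv.piLpCongrLeft 2 ℝ ℝ e
  set R : ℝ := ∑ k : ↥(SphereSet.K b J), (A b J k : ℝ) with hR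
  have hRpos : 0 < R := by
    have hne : (SphereSet.K b J).Nonempty := by
      rw [← Finset.card_pos]
      have : (SphereSet.K b J).card = N := hcard
      omega
    obtain ⟨k0, hk0⟩ := hne
    rw [hR]
    apply Finset.sum_pos
    · intro k _
      have h3 : (0 : ℚ) < A b J k := lt_of_le_of_ne (hA k) (Ne.symm (SphereSet.K_ne k.2))
      exact_mod_cast h3
    · exact ⟨⟨k0, hk0⟩, Finset.mem_univ _⟩
  let f0 : ℕ → EuclideanSpace ℝ (Fin (2 * N)) := fun i => T (SphereSet.g b J i)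
  have hf0n : ∀ i, ‖f0 i‖ = √R := by
    intro i
    have h1 : ‖f0 i‖ = ‖SphereSet.g b J i‖ := T.norm_map _
    rw [h1, hR, ← SphereSet.g_norm b J hA i, Real.sqrt_sq (norm_nonneg _)]
  have hf0d : ∀ i j, ∃ q : ℚ, dist (f0 i) (f0 j) = q := by
    intro i j
    have h1 : dist (f0 i) (f0 j) = dist (SphereSet.g b J i) (SphereSet.g b J j) :=
      T.dist_map _ _
    have h2 : ∃ q : ℚ, (2 * ∑ l ∈ Finset.range J, (b l : ℝ) *
      ((SphereSet.w i * (starRingEnd ℂ) (SphereSet.w j)) ^ (2 * l + 1)).im) = q := by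
      have h3 : ∀ l : ℕ, ∃ q : ℚ,
          ((SphereSet.w i * (starRingEnd ℂ) (SphereSet.w j)) ^ (2 * l + 1)).im = q := by
        intro l
        obtain ⟨p, q, _, hq⟩ := ((SphereSet.w_rat i).mul (SphereSet.w_rat j).conj).pow (2 * l + 1)
        exact ⟨q, hq⟩
      choose q hq using h3
      refine ⟨2 * ∑ l ∈ Finset.range J, b l * q l, ?_⟩
      push_cast
      rw [Finset.sum_congr rfl fun l _ => by rw [hq l]]
    obtain ⟨q, hq⟩ := h2
    refine ⟨|q|, ?_⟩
    have h4 := SphereSet.g_dist b J hA i j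
    rw [hq] at h4
    rw [h1]
    have h5 : √(dist (SphereSet.g b J i) (SphereSet.g b J j) ^ 2) = √((q : ℝ) ^ 2) := by rw [h4]
    rw [Real.sqrt_sq dist_nonneg, Real.sqrt_sq_eq_abs] at h5
    rw [h5]; push_cast; rfl
  have hf0h : ∀ (v : EuclideanSpace ℝ (Fin (2 * N))) (c : ℝ), (v ≠ 0 ∨ c ≠ 0) →
        {i | inner ℝ (f0 i) v = c}.Finite := by
    intro v c hvc
    have h1 : T.symm v ≠ 0 ∨ c ≠ 0 := by
      rcases hvc with h | h
      · left
        intro h0
        apply h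
        have := congrArg T h0
        rwa [T.apply_symm_apply, map_zero] at this
      · exact Or.inr h
    refine (SphereSet.g_hyper b J hA (T.symm v) c h1).subset ?_
    intro i hi
    have hi' : inner ℝ (f0 i) v = c := hi
    change inner ℝ (SphereSet.g b J i) (T.symm v) = c
    rw [← hi']
    have h2 : inner ℝ (T (SphereSet.g b J i)) (T (T.symm v)) =
        (inner ℝ (SphereSet.g b J i) (T.symm v) : ℝ) := T.inner_map_map _ _
    rw [T.apply_symm_apply] at h2
    exact h2.symm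
  have hinf : (Set.range f0).Infinite := by
    intro hfin
    have h1 : (Set.univ : Set ℕ) = ⋃ y ∈ Set.range f0, {i | f0 i = y} := by
      ext i; simp
    have h2 : (⋃ y ∈ Set.range f0, {i | f0 i = y}).Finite := by
      refine hfin.biUnion ?_
      rintro y ⟨j, rfl⟩
      have hne : f0 j ≠ 0 := by
        intro h0
        have := hf0n j
        rw [h0, norm_zero] at this
        have h3 := Real.sqrt_pos.mpr hRpos
        linarith
      refine (hf0h (f0 j) (inner ℝ (f0 j) (f0 j)) (Or.inl hne)).subset ?_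
      intro i hi
      have hi' : f0 i = f0 j := hi
      change inner ℝ (f0 i) (f0 j) = inner ℝ (f0 j) (f0 j)
      rw [hi']
    rw [← h1] at h2
    exact Set.infinite_univ h2
  let em : ℕ ↪ ↥(Set.range f0) := hinf.natEmbedding
  have hex : ∀ n, ∃ i, f0 i = (em n : EuclideanSpace ℝ (Fin (2 * N))) := fun n => (em n).2
  choose h hh using hex
  have hinj : Function.Injective (fun n => f0 (h n)) := by
    intro m n hmn
    have h1 : f0 (h m) = f0 (h n) := hmn
    rw [hh, hh] at h1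
    exact em.injective (Subtype.ext h1)
  have hhinj : Function.Injective h := by
    intro m n hmn
    apply hinj
    change f0 (h m) = f0 (h n)
    rw [hmn]
  refine ⟨fun n => f0 (h n), √R, hinj, Real.sqrt_pos.mpr hRpos, fun i => hf0n _, fun i j => hf0d _ _, ?_⟩
  intro v c hvc
  exact (hf0h v c hvc).preimage hhinj.injOn

end Pool.Agent.EGP
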